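import Pool.Agent.Helper64.Rig.Basics

/-! # Packet Flex: hyperflex lines of the Fermat quintic -/

namespace Pool.Agent.Helper90.Rig

open Polynomial Pool.Agent.Helper64.Rig

theorem sum3 (f : Fin 3 → ℂ) (j : Fin 3) : ∑ i, f i = f j + f (j + 1) + f (j + 2) := by
  rw [Fin.sum_univ_three]
  fin_cases j
  · rfl
  · show f 0 + f 1 + f 2 = f 1 + f 2 + f 0
    ring
  · show f 0 + f 1 + f 2 = f 2 + f 0 + f 1
    ring

theorem ex3 (i j : Fin 3) : i = j ∨ i = j + 1 ∨ i = j + 2 := by
  fin_cases i <;> fin_cases j <;> decide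

theorem ne1 (j : Fin 3) : j + 1 ≠ j := by fin_cases j <;> decide
theorem ne2 (j : Fin 3) : j + 2 ≠ j := by fin_cases j <;> decide
theorem ne3 (j : Fin 3) : j + 2 ≠ j + 1 := by fin_cases j <;> decide

/-- The point of the plane `L = 0` with given coordinates. -/
noncomputable def pl (L : Fin 3 → ℂ) (j : Fin 3) (x y : ℂ) : Fin 3 → ℂ := fun i =>
  if i = j then -(L (j + 1) * x + L (j + 2) * y) / L j else if i = j + 1 then x else y

variable {L : Fin 3 → ℂ} {j : Fin 3}

theorem pl0 (x y : ℂ) : pl L j x y j = -(L (j + 1) * x + L (j + 2) * y) / L j := by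
  simp [pl]

theorem pl1 (x y : ℂ) : pl L j x y (j + 1) = x := by
  unfold pl
  rw [if_neg (ne1 j), if_pos rfl]

theorem pl2 (x y : ℂ) : pl L j x y (j + 2) = y := by
  unfold pl
  rw [if_neg (ne2 j), if_neg (ne3 j)]

theorem pl_mem (hj : L j ≠ 0) (x y : ℂ) : ∑ i, L i * pl L j x y i = 0 := by
  rw [sum3 _ j, pl0, pl1, pl2]
  field_simp
  ring

theorem pl_lin (x y x' y' t : ℂ) (i : Fin 3) :
    pl L j x y i + t * pl L j x' y' i = pl L j (x + t * x') (y + t * y') i := by
  rcases ex3 i j with rfl | rfl | rfl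
  · rw [pl0, pl0, pl0]; ring
  · rw [pl1, pl1, pl1]
  · rw [pl2, pl2, pl2]

/-- A vector which kills the plane is a multiple of `L`. -/
theorem kill (hj : L j ≠ 0) (α : Fin 3 → ℂ) (h : ∀ x y, ∑ i, α i * pl L j x y i = 0) (i : Fin 3) :
    α i = α j / L j * L i := by
  have h1 := h 1 0
  have h2 := h 0 1
  rw [sum3 _ j, pl0, pl1, pl2] at h1 h2
  rcases ex3 i j with rfl | rfl | rfl
  · field_simp
  · field_simp at h1 ⊢
    linear_combination h1
  · field_simp at h2 ⊢
    linear_combination h2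

/-- The restriction of the quintic to a line. -/
noncomputable def gg (V W : Fin 3 → ℂ) : ℂ[X] := ∑ i, (C (V i) + C (W i) * X) ^ 5

theorem gg_eval (V W : Fin 3 → ℂ) (t : ℂ) : (gg V W).eval t = ∑ i, (V i + t * W i) ^ 5 := by
  unfold gg
  rw [eval_finsetSum]
  refine Finset.sum_congr rfl fun i _ => ?_
  simp only [eval_pow, eval_add, eval_mul, eval_C, eval_X]
  ring

theorem coeff_aux (a b c d e f : ℂ) :
    (C a * X ^ 5 + C b * X ^ 4 + C c * X ^ 3 + C d * X ^ 2 + C e * X + C f).coeff 5 = a := by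
  simp

theorem gg_coeff (V W : Fin 3 → ℂ) : (gg V W).coeff 5 = ∑ i, W i ^ 5 := by
  unfold gg
  rw [finsetSum_coeff]
  refine Finset.sum_congr rfl fun i _ => ?_
  have : (C (V i) + C (W i) * X) ^ 5 = C (W i ^ 5) * X ^ 5 + C (5 * V i * W i ^ 4) * X ^ 4 +
      C (10 * V i ^ 2 * W i ^ 3) * X ^ 3 + C (10 * V i ^ 3 * W i ^ 2) * X ^ 2 +
      C (5 * V i ^ 4 * W i) * X + C (V i ^ 5) := by
    simp only [map_mul, map_pow, map_ofNat]
    ring
  rw [this, coeff_aux]

theorem gg_d1 (V W : Fin 3 → ℂ) (t : ℂ) :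
    (derivative (gg V W)).eval t = 5 * ∑ i, (V i + t * W i) ^ 4 * W i := by
  unfold gg
  rw [derivative_sum, eval_finsetSum, Finset.mul_sum]
  refine Finset.sum_congr rfl fun i _ => ?_
  simp [derivative_pow]
  ring

theorem gg_d2 (V W : Fin 3 → ℂ) (t : ℂ) :
    (derivative (derivative (gg V W))).eval t = 20 * ∑ i, (V i + t * W i) ^ 3 * W i ^ 2 := by
  unfold gg
  rw [derivative_sum, derivative_sum, eval_finsetSum, Finset.mul_sum]
  refine Finset.sum_congr rfl fun i _ => ?_
  simp [derivative_pow]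
  ring

theorem pf_Flex : StmtFlex := by
  intro ζ hζ L Q₁ Q₂ hL h
  have hj : ∃ j, L j ≠ 0 := by
    by_contra hcon
    push Not at hcon
    exact hL (funext hcon)
  obtain ⟨j, hj⟩ := hj
  -- a point outside the quintic
  have hτ : ∃ τ : ℂ, ∑ i, pl L j 1 τ i ^ 5 ≠ 0 := by
    by_contra hcon
    push Not at hcon
    have one : ∀ (Q : Fin 3 → ℂ) (τ τ' : ℂ), (∃ t : ℂ, pl L j 1 τ = t • Q) →
        (∃ t : ℂ, pl L j 1 τ' = t • Q) → τ = τ' := by
      rintro Q τ τ' ⟨t, ht⟩ ⟨t', ht'⟩
      have e1 := congrFun ht (j + 1)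
      have e2 := congrFun ht' (j + 1)
      have e3 := congrFun ht (j + 2)
      have e4 := congrFun ht' (j + 2)
      simp only [pl1, pl2, Pi.smul_apply, smul_eq_mul] at e1 e2 e3 e4
      have hQ : Q (j + 1) ≠ 0 := by
        rintro h0
        rw [h0, mul_zero] at e1
        exact one_ne_zero e1
      have htt : t = t' := mul_right_cancel₀ hQ (e1.symm.trans e2)
      rw [e3, e4, htt]
    have h0 := h _ (pl_mem hj 1 0) (hcon 0)
    have h1 := h _ (pl_mem hj 1 1) (hcon 1)
    have h2 := h _ (pl_mem hj 1 2) (hcon 2)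
    rcases h0 with h0 | h0 <;> rcases h1 with h1 | h1 <;> rcases h2 with h2 | h2 <;>
      first
      | exact absurd (one _ _ _ h0 h1) (by norm_num)
      | exact absurd (one _ _ _ h0 h2) (by norm_num)
      | exact absurd (one _ _ _ h1 h2) (by norm_num)
  obtain ⟨τ, hτ⟩ := hτ
  set V := pl L j 0 1 with hV
  set W := pl L j 1 τ with hW
  set g := gg V W with hg
  have hc5 : g.coeff 5 ≠ 0 := by rw [hg, gg_coeff]; exact hτ
  have hg0 : g ≠ 0 := by
    rintro h0
    rw [h0, coeff_zero] at hc5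
    exact hc5 rfl
  have hdeg : 5 ≤ g.natDegree := le_natDegree_of_ne_zero hc5
  have hcard : 5 ≤ Multiset.card g.roots := by
    have := (IsAlgClosed.splits g).natDegree_eq_card_roots
    omega
  -- the line through a root
  have hVW : ∀ t i, V i + t * W i = pl L j t (1 + t * τ) i := by
    intro t i
    rw [hV, hW, pl_lin]
    congr 1 <;> ring
  have one : ∀ (Q : Fin 3 → ℂ) (t t' : ℂ), (∃ s : ℂ, pl L j t (1 + t * τ) = s • Q) →
      (∃ s : ℂ, pl L j t' (1 + t' * τ) = s • Q) → t = t' := by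
    rintro Q t t' ⟨s, hs⟩ ⟨s', hs'⟩
    have e1 := congrFun hs (j + 1)
    have e2 := congrFun hs' (j + 1)
    have e3 := congrFun hs (j + 2)
    have e4 := congrFun hs' (j + 2)
    simp only [pl1, pl2, Pi.smul_apply, smul_eq_mul] at e1 e2 e3 e4
    have e5 : s' = s := by
      have h1 : (1 + t * τ) * s' = (1 + t' * τ) * s := by rw [e3, e4]; ring
      have h2 : t * s' = t' * s := by rw [e1, e2]; ring
      linear_combination h1 - τ * h2
    rw [e1, e2, e5]
  have hroot : ∀ t ∈ g.roots, (∃ s : ℂ, pl L j t (1 + t * τ) = s • Q₁) ∨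
      (∃ s : ℂ, pl L j t (1 + t * τ) = s • Q₂) := by
    intro t ht
    have h1 : g.eval t = 0 := (mem_roots hg0).1 ht
    rw [hg, gg_eval] at h1
    refine h _ (pl_mem hj _ _) ?_
    rw [← h1]
    exact Finset.sum_congr rfl fun i _ => by rw [hVW]
  have hmult : ∃ t, 3 ≤ g.roots.count t := by
    classical
    by_contra hcon
    push Not at hcon
    have h1 := Multiset.toFinset_sum_count_eq g.roots
    have h2 : g.roots.toFinset.card ≤ 2 := by
      have h3 : g.roots.toFinset ⊆
          (g.roots.toFinset.filter fun t => ∃ s : ℂ, pl L j t (1 + t * τ) = s • Q₁) ∪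
          (g.roots.toFinset.filter fun t => ∃ s : ℂ, pl L j t (1 + t * τ) = s • Q₂) := by
        intro t ht
        rw [Finset.mem_union, Finset.mem_filter, Finset.mem_filter]
        rcases hroot t (Multiset.mem_toFinset.1 ht) with h4 | h4
        · exact Or.inl ⟨ht, h4⟩
        · exact Or.inr ⟨ht, h4⟩
      have h5 : ∀ Q : Fin 3 → ℂ,
          (g.roots.toFinset.filter fun t => ∃ s : ℂ, pl L j t (1 + t * τ) = s • Q).card ≤ 1 := by
        intro Q
        rw [Finset.card_le_one]
        intro t ht t' ht'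
        exact one Q t t' (Finset.mem_filter.1 ht).2 (Finset.mem_filter.1 ht').2
      refine (Finset.card_le_card h3).trans ((Finset.card_union_le _ _).trans ?_)
      have := h5 Q₁
      have := h5 Q₂
      omega
    have h3 : ∑ t ∈ g.roots.toFinset, g.roots.count t ≤ g.roots.toFinset.card • 2 := by
      refine Finset.sum_le_card_nsmul _ _ _ fun t _ => ?_
      have := hcon t
      omega
    rw [smul_eq_mul] at h3
    omega
  obtain ⟨t, ht⟩ := hmult
  rw [count_roots] at ht
  set Q : Fin 3 → ℂ := fun i => V i + t * W i with hQ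
  have q0 : ∑ i, Q i ^ 5 = 0 := by
    have := isRoot_iterate_derivative_of_lt_rootMultiplicity (p := g) (t := t) (n := 0) (by omega)
    rw [Function.iterate_zero, id, IsRoot, hg, gg_eval] at this
    exact this
  have q1 : ∑ i, Q i ^ 4 * W i = 0 := by
    have := isRoot_iterate_derivative_of_lt_rootMultiplicity (p := g) (t := t) (n := 1) (by omega)
    rw [Function.iterate_one, IsRoot, hg, gg_d1] at this
    exact (mul_eq_zero.1 this).resolve_left (by norm_num)
  have q2 : ∑ i, Q i ^ 3 * W i ^ 2 = 0 := by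
    have := isRoot_iterate_derivative_of_lt_rootMultiplicity (p := g) (t := t) (n := 2) (by omega)
    rw [Function.iterate_succ, Function.iterate_one, Function.comp, IsRoot, hg, gg_d2] at this
    exact (mul_eq_zero.1 this).resolve_left (by norm_num)
  have hQpl : ∀ i, Q i = pl L j t (1 + t * τ) i := fun i => hVW t i
  -- the plane is spanned by Q and W
  have hspan : ∀ x y i, pl L j x y i = (y - τ * x) * Q i + (x - t * (y - τ * x)) * W i := by
    intro x y i
    rw [hQpl, hW]
    rcases ex3 i j with rfl | rfl | rfl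
    · rw [pl0, pl0, pl0]; ring
    · rw [pl1, pl1, pl1]; ring
    · rw [pl2, pl2, pl2]; ring
  have hkill : ∀ α : Fin 3 → ℂ, ∑ i, α i * Q i = 0 → ∑ i, α i * W i = 0 →
      ∀ i, α i = α j / L j * L i := by
    intro α h1 h2
    refine kill hj α fun x y => ?_
    have : ∑ i, α i * pl L j x y i = (y - τ * x) * ∑ i, α i * Q i +
        (x - t * (y - τ * x)) * ∑ i, α i * W i := by
      rw [Finset.mul_sum, Finset.mul_sum, ← Finset.sum_add_distrib]
      refine Finset.sum_congr rfl fun i _ => ?_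
      rw [hspan x y i]
      ring
    rw [this, h1, h2]
    ring
  have hα := hkill (fun i => Q i ^ 4) (by rw [← q0]; exact Finset.sum_congr rfl fun i _ => by ring) q1
  have hβ := hkill (fun i => Q i ^ 3 * W i)
    (by rw [← q1]; exact Finset.sum_congr rfl fun i _ => by ring)
    (by rw [← q2]; exact Finset.sum_congr rfl fun i _ => by ring)
  set a := Q j ^ 4 / L j with ha
  set b := Q j ^ 3 * W j / L j with hb
  -- Q is not zero
  have hQne : ∃ i, Q i ≠ 0 := by
    by_contra hcon
    push Not at hcon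
    have e1 := hcon (j + 1)
    have e2 := hcon (j + 2)
    rw [hQpl, pl1] at e1
    rw [hQpl, pl2, e1] at e2
    norm_num at e2
  have ha0 : a ≠ 0 := by
    intro h0
    obtain ⟨i, hi⟩ := hQne
    have := hα i
    rw [h0, zero_mul] at this
    exact hi (pow_eq_zero_iff (by norm_num) |>.1 this)
  -- some coordinate of Q is zero
  have hi : ∃ i, Q i = 0 := by
    by_contra hcon
    push Not at hcon
    have h1 : ∀ i, a * W i = b * Q i := by
      intro i
      have e1 := hα i
      have e2 := hβ i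
      have : Q i ^ 3 * (a * W i - b * Q i) = 0 := by
        have e3 : a * (Q i ^ 3 * W i) = b * Q i ^ 4 := by rw [e1, e2]; ring
        linear_combination e3
      have h3 := (mul_eq_zero.1 this).resolve_left (pow_ne_zero _ (hcon i))
      linear_combination h3
    have e1 := h1 (j + 1)
    have e2 := h1 (j + 2)
    rw [hQpl, hW, pl1, pl1] at e1
    rw [hQpl, hW, pl2, pl2] at e2
    have hb0 : b = 0 := by linear_combination τ * e1 - e2
    rw [hb0, zero_mul, mul_one] at e1
    exact ha0 e1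
  obtain ⟨i, hi⟩ := hi
  have q0' := q0
  rw [sum3 _ i, hi] at q0'
  have hn1 : Q (i + 1) ≠ 0 := by
    intro h0
    obtain ⟨l, hl⟩ := hQne
    rw [h0] at q0'
    have h2 : Q (i + 2) = 0 := by
      have : Q (i + 2) ^ 5 = 0 := by linear_combination q0'
      exact pow_eq_zero_iff (by norm_num) |>.1 this
    rcases ex3 l i with rfl | rfl | rfl
    · exact hl hi
    · exact hl h0
    · exact hl h2
  have h5 : (-(Q (i + 2) / Q (i + 1))) ^ 5 = 1 := by
    have : Q (i + 2) ^ 5 = -Q (i + 1) ^ 5 := by linear_combination q0'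
    rw [neg_pow, div_pow, this]
    field_simp
  obtain ⟨e, he, hze⟩ := hζ.eq_pow_of_pow_eq_one h5
  have hLi : ∀ l, L l = Q l ^ 4 / a := by
    intro l
    rw [hα l]
    field_simp
  refine ⟨i, ⟨(4 * e) % 5, Nat.mod_lt _ (by norm_num)⟩, L (i + 1), ?_, ?_, rfl, ?_⟩
  · rw [hLi]
    exact div_ne_zero (pow_ne_zero _ hn1) ha0
  · rw [hLi, hi]
    simp
  · show L (i + 2) = L (i + 1) * ζ ^ ((4 * e) % 5)
    have h6 : ζ ^ ((4 * e) % 5) = (Q (i + 2) / Q (i + 1)) ^ 4 := by
      have h8 : ζ ^ ((4 * e) % 5) = ζ ^ (4 * e) := by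
        calc ζ ^ ((4 * e) % 5) = (ζ ^ 5) ^ (4 * e / 5) * ζ ^ ((4 * e) % 5) := by
              rw [hζ.pow_eq_one, one_pow, one_mul]
          _ = ζ ^ (4 * e) := by rw [← pow_mul, ← pow_add, Nat.div_add_mod]
      rw [h8, mul_comm, pow_mul, hze]
      ring
    rw [h6, hLi (i + 2), hLi (i + 1)]
    field_simp

end Pool.Agent.Helper90.Rig
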